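import Pool.Agent.Helper26.MCE.GoalsB

set_option autoImplicit false

namespace Pool.Agent.Helper99.MCE

open Finset Pool.Agent.Helper87.MC Pool.Agent.Helper26.MCE

open Classical in
lemma lab_card_le {G : Type} [AddCommGroup G] [Fintype G] (D : Finset G) (K : ℕ → AddSubgroup G)
    (j : ℕ) : (lab D K j).card ≤ D.card := by
  refine card_le_card ?_
  intro x hx
  unfold lab at hx
  have h1 := (mem_sdiff.1 hx).1
  unfold full at h1
  exact (mem_filter.1 h1).1

open Classical in
theorem goalGOOD (h1 : G_SPB) (h2 : G_FOR) (h3 : G_LDB) (h4 : G_MK) : G_GOOD := by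
  intro G _ _ s V _ D K f B ρ ρh t L2 c ty k lam η hC hF hρ hρh hL2 ht ht4 hσ hη hs1 hs2 hs3
  set O := Om s V K with hO
  have hO1 : (0 : ℝ) < O.card := by
    have h : (fun _ => (0 : G)) ∈ O := by
      simp only [hO, Om, Fintype.mem_piFinset, mem_filter, mem_univ, true_and]
      intro i
      exact (K i.1).zero_mem
    exact_mod_cast Finset.card_pos.2 ⟨_, h⟩
  by_contra hno
  have hbad : ∀ ω ∈ O, ¬ Good D K B t c ty f (fun i => Nat.card (K i)) ρ ω :=
    fun ω _ h => hno ⟨ω, h⟩
  have hdel : ∀ v : V, ((O.filter fun ω => Del D K B t c ty ω v).card : ℝ) ≤ η * O.card := by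
    intro v
    have hsub : (O.filter fun ω => Del D K B t c ty ω v) ⊆
        ((range s).biUnion fun i => O.filter fun ω => Spoil D K B t c i ω v) ∪
        ((Ico 1 s).biUnion fun i => O.filter fun ω => Foreign D K B t c ty i ω v) := by
      intro ω hω
      rw [mem_filter] at hω
      obtain ⟨hωO, hd⟩ := hω
      rw [mem_union, mem_biUnion, mem_biUnion]
      rcases hd with ⟨i, hi, hsp⟩ | ⟨i, hi1, his, hf⟩
      · left
        exact ⟨i, mem_range.2 (lt_of_le_of_lt hi (hF.tyl v)), mem_filter.2 ⟨hωO, hsp⟩⟩
      · right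
        exact ⟨i, mem_Ico.2 ⟨hi1, his⟩, mem_filter.2 ⟨hωO, hf⟩⟩
    have hcard := (card_le_card hsub).trans (card_union_le _ _)
    have c1 := card_biUnion_le (s := range s)
      (t := fun i => O.filter fun ω => Spoil D K B t c i ω v)
    have c2 := card_biUnion_le (s := Ico 1 s)
      (t := fun i => O.filter fun ω => Foreign D K B t c ty i ω v)
    have hcard2 : ((O.filter fun ω => Del D K B t c ty ω v).card : ℝ) ≤
        ∑ i ∈ range s, ((O.filter fun ω => Spoil D K B t c i ω v).card : ℝ) +
        ∑ i ∈ Ico 1 s, ((O.filter fun ω => Foreign D K B t c ty i ω v).card : ℝ) := by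
      exact_mod_cast hcard.trans (add_le_add c1 c2)
    have b1 : ∀ i ∈ range s, ((O.filter fun ω => Spoil D K B t c i ω v).card : ℝ) ≤
        2 * (∑ l ∈ range (i + 1), ρ l) / ρh i * O.card := by
      intro i hi
      have h := h1 G s V D K f B ρ ρh t L2 c ty (2 * k) lam hC hF hρ hρh hσ i (mem_range.1 hi) v
      rw [div_mul_eq_mul_div, le_div_iff₀ (hρh i), mul_comm]
      exact h
    have b2 : ∀ i ∈ Ico 1 s, ((O.filter fun ω => Foreign D K B t c ty i ω v).card : ℝ) ≤
        2 * L2 * (∑ l ∈ range i, ρ l) / ρ i * O.card := by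
      intro i hi
      have h := h2 G s V D K f B ρ ρh t L2 c ty (2 * k) lam hC hF hρ hL2 i (mem_Ico.1 hi).1
        (mem_Ico.1 hi).2 v
      rw [div_mul_eq_mul_div, le_div_iff₀ (hρ i), mul_comm]
      exact h
    calc ((O.filter fun ω => Del D K B t c ty ω v).card : ℝ)
        ≤ ∑ i ∈ range s, 2 * (∑ l ∈ range (i + 1), ρ l) / ρh i * O.card +
          ∑ i ∈ Ico 1 s, 2 * L2 * (∑ l ∈ range i, ρ l) / ρ i * O.card :=
          hcard2.trans (add_le_add (sum_le_sum b1) (sum_le_sum b2))
      _ = (∑ i ∈ range s, 2 * (∑ l ∈ range (i + 1), ρ l) / ρh i +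
          ∑ i ∈ Ico 1 s, 2 * L2 * (∑ l ∈ range i, ρ l) / ρ i) * O.card := by
          rw [add_mul, sum_mul, sum_mul]
      _ ≤ η * O.card := by gcongr
  -- Markov
  have hU1 : ∀ j ∈ range s, ((O.filter fun ω => (univ.filter fun v => ty v = j).card <
      8 * (univ.filter fun v => ty v = j ∧ Del D K B t c ty ω v).card).card : ℝ) ≤
      8 * η * O.card := by
    intro j hj
    have hN : (1 : ℝ) ≤ ((univ.filter fun v => ty v = j).card : ℝ) := by
      exact_mod_cast (hF.enough j (mem_range.1 hj)).2
    have hswap : ∑ ω ∈ O, ((univ.filter fun v => ty v = j ∧ Del D K B t c ty ω v).card : ℝ) =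
        ∑ v ∈ univ.filter (fun v => ty v = j),
          ((O.filter fun ω => Del D K B t c ty ω v).card : ℝ) := by
      have e1 : ∀ ω : Fin s × V → G,
          ((univ.filter fun v => ty v = j ∧ Del D K B t c ty ω v).card : ℝ) =
          ∑ v ∈ univ.filter (fun v => ty v = j), if Del D K B t c ty ω v then (1 : ℝ) else 0 := by
        intro ω
        rw [← filter_filter, card_filter]
        push_cast
        rfl
      have e2 : ∀ v : V, ((O.filter fun ω => Del D K B t c ty ω v).card : ℝ) =
          ∑ ω ∈ O, if Del D K B t c ty ω v then (1 : ℝ) else 0 := by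
        intro v
        rw [card_filter]
        push_cast
        rfl
      simp only [e1, e2]
      rw [sum_comm]
    have hsum : ∑ ω ∈ O, ((univ.filter fun v => ty v = j ∧ Del D K B t c ty ω v).card : ℝ) ≤
        ((univ.filter fun v => ty v = j).card : ℝ) * (η * O.card) := by
      rw [hswap]
      refine (sum_le_sum fun v _ => hdel v).trans ?_
      rw [sum_const, nsmul_eq_mul]
    have hmark : ((O.filter fun ω => (univ.filter fun v => ty v = j).card <
        8 * (univ.filter fun v => ty v = j ∧ Del D K B t c ty ω v).card).card : ℝ) *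
        ((univ.filter fun v => ty v = j).card : ℝ) ≤
        8 * ∑ ω ∈ O, ((univ.filter fun v => ty v = j ∧ Del D K B t c ty ω v).card : ℝ) := by
      rw [mul_sum, ← nsmul_eq_mul, ← sum_const]
      refine (sum_le_sum (f := fun _ => ((univ.filter fun v => ty v = j).card : ℝ))
        (g := fun ω => 8 * ((univ.filter fun v => ty v = j ∧ Del D K B t c ty ω v).card : ℝ))
        fun ω hω => ?_).trans ?_
      · have h := (mem_filter.1 hω).2
        exact_mod_cast h.le
      · exact sum_le_sum_of_subset_of_nonneg (filter_subset _ _) fun ω _ _ => by positivity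
    have hpos : (0 : ℝ) < ((univ.filter fun v => ty v = j).card : ℝ) := by linarith
    refine le_of_mul_le_mul_right ?_ hpos
    calc _ ≤ 8 * ∑ ω ∈ O, ((univ.filter fun v => ty v = j ∧ Del D K B t c ty ω v).card : ℝ) :=
          hmark
      _ ≤ 8 * (((univ.filter fun v => ty v = j).card : ℝ) * (η * O.card)) := by gcongr
      _ = 8 * η * O.card * ((univ.filter fun v => ty v = j).card : ℝ) := by ring
  set σ := ∑ i ∈ range s, ρ i with hσdef
  have hσ0 : 0 ≤ σ := sum_nonneg fun i _ => (hρ i).le
  have hU2 : ∀ i ∈ range s, ∀ v : V, ∀ g : G, ((O.filter fun ω =>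
      LD D K B t c f (fun i => Nat.card (K i)) ρ i ω v g).card : ℝ) ≤
      (4 * (2 * k : ℕ) * σ) ^ (2 * k) * O.card := by
    intro i hi v g
    exact h3 G s V D K f B ρ ρh t L2 c ty (2 * k) lam hC hF hρ ht ht4 i (mem_range.1 hi) v g
  have hU3 : ∀ j ∈ range s, ∀ d ∈ lab D K j, ((O.filter fun ω =>
      (univ.filter fun v => ty v = j).card <
      4 * (univ.filter fun v => ty v = j ∧ BadMark D c ω d v).card).card : ℝ) ≤
      2 * (256 * σ) ^ k * O.card := by
    intro j hj d hd
    exact h4 G s V D K f B ρ ρh t L2 c ty k lam hC hF hρ (by linarith) j (mem_range.1 hj) d hd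
  have hcover : O ⊆ ((range s).biUnion fun j => O.filter fun ω =>
        (univ.filter fun v => ty v = j).card <
        8 * (univ.filter fun v => ty v = j ∧ Del D K B t c ty ω v).card) ∪
      (((range s).biUnion fun i => (univ : Finset V).biUnion fun v => (univ : Finset G).biUnion
        fun g => O.filter fun ω => LD D K B t c f (fun i => Nat.card (K i)) ρ i ω v g) ∪
      ((range s).biUnion fun j => (lab D K j).biUnion fun d => O.filter fun ω =>
        (univ.filter fun v => ty v = j).card <
        4 * (univ.filter fun v => ty v = j ∧ BadMark D c ω d v).card)) := by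
    intro ω hω
    by_contra hcon
    rw [mem_union, mem_union, not_or, not_or] at hcon
    obtain ⟨n1, n2, n3⟩ := hcon
    refine hbad ω hω ⟨hω, ?_, ?_, ?_⟩
    · intro j hj
      by_contra hlt
      push Not at hlt
      exact n1 (mem_biUnion.2 ⟨j, mem_range.2 hj, mem_filter.2 ⟨hω, hlt⟩⟩)
    · intro i hi v g hLD
      exact n2 (mem_biUnion.2 ⟨i, mem_range.2 hi, mem_biUnion.2 ⟨v, mem_univ v,
        mem_biUnion.2 ⟨g, mem_univ g, mem_filter.2 ⟨hω, hLD⟩⟩⟩⟩)
    · intro j hj d hd
      by_contra hlt
      push Not at hlt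
      exact n3 (mem_biUnion.2 ⟨j, mem_range.2 hj, mem_biUnion.2 ⟨d, hd,
        mem_filter.2 ⟨hω, hlt⟩⟩⟩)
  have hc := (card_le_card hcover).trans ((card_union_le _ _).trans
    (Nat.add_le_add_left (card_union_le _ _) _))
  have hb1 : (((range s).biUnion fun j => O.filter fun ω =>
        (univ.filter fun v => ty v = j).card <
        8 * (univ.filter fun v => ty v = j ∧ Del D K B t c ty ω v).card).card : ℝ) ≤
      s * (8 * η) * O.card := by
    have e := card_biUnion_le (s := range s) (t := fun j => O.filter fun ω =>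
        (univ.filter fun v => ty v = j).card <
        8 * (univ.filter fun v => ty v = j ∧ Del D K B t c ty ω v).card)
    calc _ ≤ ∑ j ∈ range s, ((O.filter fun ω => (univ.filter fun v => ty v = j).card <
          8 * (univ.filter fun v => ty v = j ∧ Del D K B t c ty ω v).card).card : ℝ) := by
          exact_mod_cast e
      _ ≤ ∑ j ∈ range s, 8 * η * O.card := sum_le_sum hU1
      _ = s * (8 * η) * O.card := by
          rw [sum_const, card_range, nsmul_eq_mul]; ring
  have hb2 : (((range s).biUnion fun i => (univ : Finset V).biUnion fun v =>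
        (univ : Finset G).biUnion
        fun g => O.filter fun ω => LD D K B t c f (fun i => Nat.card (K i)) ρ i ω v g).card : ℝ) ≤
      s * Fintype.card V * Fintype.card G * (4 * (2 * k : ℕ) * σ) ^ (2 * k) * O.card := by
    have e3 : ∀ i ∈ range s, ∀ v : V, (((univ : Finset G).biUnion
        fun g => O.filter fun ω => LD D K B t c f (fun i => Nat.card (K i)) ρ i ω v g).card : ℝ) ≤
        Fintype.card G * ((4 * (2 * k : ℕ) * σ) ^ (2 * k) * O.card) := by
      intro i hi v
      have e := card_biUnion_le (s := (univ : Finset G)) (t := fun g => O.filter fun ω =>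
        LD D K B t c f (fun i => Nat.card (K i)) ρ i ω v g)
      calc _ ≤ ∑ g : G, ((O.filter fun ω =>
            LD D K B t c f (fun i => Nat.card (K i)) ρ i ω v g).card : ℝ) := by
            exact_mod_cast e
        _ ≤ ∑ g : G, (4 * (2 * k : ℕ) * σ) ^ (2 * k) * O.card :=
            sum_le_sum fun g _ => hU2 i hi v g
        _ = _ := by rw [sum_const, card_univ, nsmul_eq_mul]
    have e2 : ∀ i ∈ range s, (((univ : Finset V).biUnion fun v => (univ : Finset G).biUnion
        fun g => O.filter fun ω => LD D K B t c f (fun i => Nat.card (K i)) ρ i ω v g).card : ℝ) ≤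
        Fintype.card V * (Fintype.card G * ((4 * (2 * k : ℕ) * σ) ^ (2 * k) * O.card)) := by
      intro i hi
      have e := card_biUnion_le (s := (univ : Finset V)) (t := fun v => (univ : Finset G).biUnion
        fun g => O.filter fun ω => LD D K B t c f (fun i => Nat.card (K i)) ρ i ω v g)
      calc _ ≤ ∑ v : V, (((univ : Finset G).biUnion fun g => O.filter fun ω =>
            LD D K B t c f (fun i => Nat.card (K i)) ρ i ω v g).card : ℝ) := by
            exact_mod_cast e
        _ ≤ ∑ v : V, Fintype.card G * ((4 * (2 * k : ℕ) * σ) ^ (2 * k) * O.card) :=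
            sum_le_sum fun v _ => e3 i hi v
        _ = _ := by rw [sum_const, card_univ, nsmul_eq_mul]
    have e := card_biUnion_le (s := range s) (t := fun i => (univ : Finset V).biUnion fun v =>
      (univ : Finset G).biUnion
        fun g => O.filter fun ω => LD D K B t c f (fun i => Nat.card (K i)) ρ i ω v g)
    calc _ ≤ ∑ i ∈ range s, (((univ : Finset V).biUnion fun v => (univ : Finset G).biUnion
          fun g => O.filter fun ω =>
            LD D K B t c f (fun i => Nat.card (K i)) ρ i ω v g).card : ℝ) := by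
          exact_mod_cast e
      _ ≤ ∑ i ∈ range s, Fintype.card V * (Fintype.card G *
          ((4 * (2 * k : ℕ) * σ) ^ (2 * k) * O.card)) := sum_le_sum e2
      _ = _ := by rw [sum_const, card_range, nsmul_eq_mul]; ring
  have hb3 : (((range s).biUnion fun j => (lab D K j).biUnion fun d => O.filter fun ω =>
        (univ.filter fun v => ty v = j).card <
        4 * (univ.filter fun v => ty v = j ∧ BadMark D c ω d v).card).card : ℝ) ≤
      s * D.card * (2 * (256 * σ) ^ k) * O.card := by
    have e2 : ∀ j ∈ range s, (((lab D K j).biUnion fun d => O.filter fun ω =>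
        (univ.filter fun v => ty v = j).card <
        4 * (univ.filter fun v => ty v = j ∧ BadMark D c ω d v).card).card : ℝ) ≤
        D.card * (2 * (256 * σ) ^ k * O.card) := by
      intro j hj
      have e := card_biUnion_le (s := lab D K j) (t := fun d => O.filter fun ω =>
        (univ.filter fun v => ty v = j).card <
        4 * (univ.filter fun v => ty v = j ∧ BadMark D c ω d v).card)
      calc _ ≤ ∑ d ∈ lab D K j, ((O.filter fun ω =>
            (univ.filter fun v => ty v = j).card <
            4 * (univ.filter fun v => ty v = j ∧ BadMark D c ω d v).card).card : ℝ) := by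
            exact_mod_cast e
        _ ≤ ∑ d ∈ lab D K j, 2 * (256 * σ) ^ k * O.card := sum_le_sum fun d hd => hU3 j hj d hd
        _ = (lab D K j).card * (2 * (256 * σ) ^ k * O.card) := by
            rw [sum_const, nsmul_eq_mul]
        _ ≤ D.card * (2 * (256 * σ) ^ k * O.card) := by
            have := lab_card_le D K j
            gcongr
    have e := card_biUnion_le (s := range s) (t := fun j => (lab D K j).biUnion fun d =>
      O.filter fun ω => (univ.filter fun v => ty v = j).card <
        4 * (univ.filter fun v => ty v = j ∧ BadMark D c ω d v).card)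
    calc _ ≤ ∑ j ∈ range s, (((lab D K j).biUnion fun d => O.filter fun ω =>
          (univ.filter fun v => ty v = j).card <
          4 * (univ.filter fun v => ty v = j ∧ BadMark D c ω d v).card).card : ℝ) := by
          exact_mod_cast e
      _ ≤ ∑ j ∈ range s, D.card * (2 * (256 * σ) ^ k * O.card) := sum_le_sum e2
      _ = _ := by rw [sum_const, card_range, nsmul_eq_mul]; ring
  have hc2 : (O.card : ℝ) ≤ s * (8 * η) * O.card +
      (s * Fintype.card V * Fintype.card G * (4 * (2 * k : ℕ) * σ) ^ (2 * k) * O.card +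
      s * D.card * (2 * (256 * σ) ^ k) * O.card) := by
    refine le_trans ?_ (add_le_add hb1 (add_le_add hb2 hb3))
    exact_mod_cast hc
  have h5 := mul_lt_mul_of_pos_right hs1 hO1
  have h6 := mul_lt_mul_of_pos_right hs2 hO1
  have h7 := mul_lt_mul_of_pos_right hs3 hO1
  linarith

end Pool.Agent.Helper99.MCE
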